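import Pool.Agent.Helper62.PLK.Cmp
import Pool.Agent.Helper31.EC.Uns

/-! PLK1 [FUL]: two rows of a literal variable `V` and the fullness of the volume; upper bounds and equality on
every event. -/

set_option autoImplicit false

namespace Pool.Agent.Helper19.PLK

open Finset Filter Topology Pool.Agent.Helper69.RK Pool.Agent.Helper31.EC Pool.Agent.Helper31.EC.Sp
open Pool.Agent.Helper31.EC.QS
open Pool.Agent.Helper62.PLK (vec1_dg two_times cmp_row h_dg_ctr)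

noncomputable section

/-- mean rate of a function -/
def mn (T : Sp) (f : ∀ k, (T.F k).Ω → ℝ) : ℝ := ul (fun k => ∑ ω, (T.F k).μ ω * f k ω)

theorem sum_mu_le {F : FSp} (f g : F.Ω → ℝ) (h : ∀ ω, F.μ ω ≠ 0 → f ω ≤ g ω) :
    ∑ ω, F.μ ω * f ω ≤ ∑ ω, F.μ ω * g ω := by
  refine Finset.sum_le_sum fun ω _ => ?_
  by_cases hω : F.μ ω = 0
  · rw [hω, zero_mul, zero_mul]
  · exact mul_le_mul_of_nonneg_left (h ω hω) (F.nn ω)

theorem sum_mu_const {F : FSp} (c : ℝ) : ∑ ω, F.μ ω * c = c := by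
  have h1 : ∑ ω, F.μ ω = 1 := F.ms
  rw [← Finset.sum_mul, h1, one_mul]

theorem mn_UB {T : Sp} {f : ∀ k, (T.F k).Ω → ℝ} {C : ℝ}
    (hf : ∀ᶠ k in UF, ∀ ω, (T.F k).μ ω ≠ 0 → 0 ≤ f k ω ∧ f k ω ≤ C) :
    UB (fun k => ∑ ω, (T.F k).μ ω * f k ω) := by
  apply UB_of_nonneg_le (C := C)
  · filter_upwards [hf] with k hk
    have h1 := sum_mu_le (F := T.F k) (fun _ => 0) (f k) fun ω hω => (hk ω hω).1
    rw [sum_mu_const] at h1
    exact h1
  · filter_upwards [hf] with k hk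
    have h1 := sum_mu_le (F := T.F k) (f k) (fun _ => C) fun ω hω => (hk ω hω).2
    rw [sum_mu_const] at h1
    exact h1

/-- means of functions which are typically at most `1 + o(1)` -/
theorem mn_max {T : Sp} (f : ∀ k, (T.F k).Ω → ℝ) (C : ℝ) (hC : 0 ≤ C)
    (hf : ∀ᶠ k in UF, ∀ ω, (T.F k).μ ω ≠ 0 → 0 ≤ f k ω ∧ f k ω ≤ C) (r : ℝ) (hr : 0 ≤ r) (hr1 : r ≤ 1)
    (e : ℕ → ℝ) (he : Tendsto e UF (𝓝 0)) (he0 : ∀ k, 0 ≤ e k)
    (ht : Typ (fun k ω => f k ω ≤ r + e k)) : mn T (fun k ω => max 0 (r - f k ω)) ≤ r - mn T f := by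
  have hU := mn_UB hf
  have hU2 : UB (fun k => ∑ ω, (T.F k).μ ω * max 0 (r - f k ω)) := by
    apply mn_UB (C := 1)
    filter_upwards [hf] with k hk ω hω
    exact ⟨le_max_left _ _, max_le zero_le_one (by linarith [(hk ω hω).1])⟩
  set p0 : ℕ → ℝ := fun k => mass (res (T.F k).μ (fun ω => ¬ f k ω ≤ r + e k)) with hp0
  have hp0t : Tendsto p0 UF (𝓝 0) := ht
  have key : ∀ᶠ k in UF, ∑ ω, (T.F k).μ ω * max 0 (r - f k ω) ≤
      r - ∑ ω, (T.F k).μ ω * f k ω + (e k + C * p0 k) := by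
    filter_upwards [hf] with k hk
    have h1 : ∑ ω, (T.F k).μ ω * max 0 (r - f k ω) ≤ ∑ ω, ((T.F k).μ ω * (r - f k ω + e k) +
        C * res (T.F k).μ (fun ω => ¬ f k ω ≤ r + e k) ω) := by
      refine Finset.sum_le_sum fun ω _ => ?_
      by_cases hω : (T.F k).μ ω = 0
      · have h2 := (T.F k).res_nonneg (fun ω => ¬ f k ω ≤ r + e k) ω
        rw [hω, zero_mul, zero_mul, zero_add]
        positivity
      · have hμ := (T.F k).nn ω
        by_cases h3 : f k ω ≤ r + e k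
        · have h2 : res (T.F k).μ (fun ω => ¬ f k ω ≤ r + e k) ω = 0 := res_neg _ _ _ (not_not.mpr h3)
          rw [h2, mul_zero, add_zero]
          apply mul_le_mul_of_nonneg_left _ hμ
          exact max_le (by linarith) (by linarith [he0 k])
        · have h2 : res (T.F k).μ (fun ω => ¬ f k ω ≤ r + e k) ω = (T.F k).μ ω := res_pos _ _ _ h3
          rw [h2]
          have h4 : max 0 (r - f k ω) = 0 := max_eq_left (by push Not at h3; linarith [he0 k])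
          rw [h4, mul_zero]
          have h5 := (hk ω hω).2
          have h6 : 0 ≤ r - f k ω + e k + C := by linarith [he0 k]
          calc 0 ≤ (T.F k).μ ω * (r - f k ω + e k + C) := mul_nonneg hμ h6
            _ = _ := by ring
    have h2 : ∑ ω, ((T.F k).μ ω * (r - f k ω + e k) + C * res (T.F k).μ (fun ω => ¬ f k ω ≤ r + e k) ω) =
        r - ∑ ω, (T.F k).μ ω * f k ω + (e k + C * p0 k) := by
      rw [Finset.sum_add_distrib, ← Finset.mul_sum]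
      have h3 : ∑ ω, (T.F k).μ ω * (r - f k ω + e k) = (r + e k) - ∑ ω, (T.F k).μ ω * f k ω := by
        have h4 := sum_mu_const (F := T.F k) (r + e k)
        rw [← h4, ← Finset.sum_sub_distrib]
        refine Finset.sum_congr rfl fun ω _ => ?_
        ring
      rw [h3]
      show r + e k - _ + C * p0 k = _
      ring
    exact h1.trans (le_of_eq h2)
  have h3 : Tendsto (fun k => r - ∑ ω, (T.F k).μ ω * f k ω + (e k + C * p0 k)) UF (𝓝 (r - mn T f + (0 + C * 0))) :=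
    (tendsto_const_nhds.sub (ul_tendsto hU)).add (he.add (hp0t.const_mul C))
  rw [mul_zero, add_zero, add_zero] at h3
  exact le_of_tendsto_of_tendsto (ul_tendsto hU2) h3 key

/-- means are averages of the means of the two parts -/
theorem sum_split {F : FSp} (E : F.Ω → Prop) (f : F.Ω → ℝ) : ∑ ω, F.μ ω * f ω =
    F.pb E * ∑ ω, (F.rest E).μ ω * f ω + (1 - F.pb E) * ∑ ω, (F.rest fun ω => ¬ E ω).μ ω * f ω := by
  have hp := F.pb_add_compl E
  have key : ∀ (E : F.Ω → Prop), F.pb E * ∑ ω, (F.rest E).μ ω * f ω = ∑ ω, res F.μ E ω * f ω := by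
    intro E
    rw [Finset.mul_sum]
    refine Finset.sum_congr rfl fun ω _ => ?_
    show F.pb E * (F.restμ E ω * f ω) = _
    by_cases h0 : F.pb E = 0
    · rw [h0, zero_mul, F.res_zero_of_pb E h0, zero_mul]
    · rw [F.restμ_eq E h0]
      field_simp
  have e1 : 1 - F.pb E = F.pb (fun ω => ¬ E ω) := by linarith
  rw [e1, key, key, ← Finset.sum_add_distrib]
  refine Finset.sum_congr rfl fun ω _ => ?_
  by_cases h : E ω
  · rw [res_pos _ _ _ h, res_neg _ (fun ω => ¬ E ω) _ (not_not.mpr h)]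
    ring
  · rw [res_neg _ _ _ h, res_pos _ (fun ω => ¬ E ω) _ h]
    ring

theorem mn_split {T : Sp} {f : ∀ k, (T.F k).Ω → ℝ} {C : ℝ}
    (hf : ∀ᶠ k in UF, ∀ ω, (T.F k).μ ω ≠ 0 → 0 ≤ f k ω ∧ f k ω ≤ C) (E : ∀ k, (T.F k).Ω → Prop) :
    mn T f = ul (T.pr E) * mn (T.rest E) f + (1 - ul (T.pr E)) * mn (T.rest fun k ω => ¬ E k ω) f := by
  have h1 : UB (fun k => ∑ ω, ((T.rest E).F k).μ ω * f k ω) := by
    apply mn_UB (T := T.rest E) (C := C)
    filter_upwards [hf] with k hk ω hω using hk ω ((T.F k).rest_supp (E k) ω hω).1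
  have h2 : UB (fun k => ∑ ω, ((T.rest fun k ω => ¬ E k ω).F k).μ ω * f k ω) := by
    apply mn_UB (T := T.rest fun k ω => ¬ E k ω) (C := C)
    filter_upwards [hf] with k hk ω hω using hk ω ((T.F k).rest_supp (fun ω => ¬ E k ω) ω hω).1
  have h3 := ul_tendsto (UB_pr E)
  have h4 : Tendsto (fun k => T.pr E k * (∑ ω, ((T.rest E).F k).μ ω * f k ω) + (1 - T.pr E k) *
      (∑ ω, ((T.rest fun k ω => ¬ E k ω).F k).μ ω * f k ω)) UF
      (𝓝 (ul (T.pr E) * mn (T.rest E) f + (1 - ul (T.pr E)) * mn (T.rest fun k ω => ¬ E k ω) f)) :=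
    (h3.mul (ul_tendsto h1)).add ((tendsto_const_nhds.sub h3).mul (ul_tendsto h2))
  apply ul_eq
  refine h4.congr fun k => ?_
  exact (sum_split (F := T.F k) (E k) (f k)).symm

/-- ROWS: a literal variable `V` with the two rows of its form -/
structure Rows (T : Sp) (t cR XR cz Xz : TR T) (al : ℕ → Type) where
  V : ∀ k, (T.F k).Ω → al k
  hV : Bdd V
  sR : ∀ k, al k → ℝ
  r0 : ∀ k, al k → ℝ
  r1 : ∀ k, al k → ℝ
  sz : ∀ k, al k → ℝ
  b0 : ∀ k, al k → ℝ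
  b1 : ∀ k, al k → ℝ
  a : ∀ k, al k → ℝ
  K : ℕ → ℝ
  hK : T.Sub K
  C : ℝ
  hC : 0 ≤ C
  big : ∀ᶠ k in UF, ∀ ω, (T.F k).μ ω ≠ 0 → (1 ≤ sR k (V k ω) ∧ 1 ≤ sz k (V k ω)) ∧
    sR k (V k ω) ≤ 2 ^ (C * (T.F k).n) ∧ sz k (V k ω) ≤ 2 ^ (C * (T.F k).n)
  rowR : Typ (fun k ω => sR k (V k ω) * T.dl 1 k ≤ K k ∧ sR k (V k ω) * |r1 k (V k ω)| * T.dl 1 k ≤ K k ∧
    |sR k (V k ω) * (TR.ev cR k ω + TR.ev t k ω * TR.ev XR k ω - r0 k (V k ω) - r1 k (V k ω) * TR.ev t k ω)| ≤ K k)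
  rowz : Typ (fun k ω => sz k (V k ω) * T.dl 1 k ≤ K k ∧
    (sz k (V k ω) * |b1 k (V k ω)| * T.dl 1 k ≤ K k ∧ sz k (V k ω) * |a k (V k ω)| * T.dl 1 k ≤ K k) ∧
    |sz k (V k ω) * (TR.ev cz k ω + TR.ev t k ω * TR.ev Xz k ω - b0 k (V k ω) - b1 k (V k ω) * TR.ev t k ω -
      a k (V k ω) * (TR.ev cR k ω + TR.ev t k ω * TR.ev XR k ω))| ≤ K k)
  ht : h (TR.dg t 1) (io V ⊔ (TR.dg cR 1 ⊔ TR.dg XR 1 ⊔ TR.dg cz 1 ⊔ TR.dg Xz 1)) = 1

namespace Rows

variable {T : Sp} {t cR XR cz Xz : TR T} {al : ℕ → Type} (D : Rows T t cR XR cz Xz al)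

/-- exponent of the row of `R` -/
def lR (k : ℕ) (ω : (T.F k).Ω) : ℝ := Real.logb 2 (D.sR k (D.V k ω)) / (T.F k).n

/-- exponent of the row of `z` -/
def lz (k : ℕ) (ω : (T.F k).Ω) : ℝ := Real.logb 2 (D.sz k (D.V k ω)) / (T.F k).n

theorem lR_bd : ∀ᶠ k in UF, ∀ ω, (T.F k).μ ω ≠ 0 → 0 ≤ D.lR k ω ∧ D.lR k ω ≤ D.C := by
  filter_upwards [D.big] with k hk ω hω
  obtain ⟨⟨a1, a2⟩, a3, a4⟩ := hk ω hω
  have hn := (T.F k).pos
  refine ⟨div_nonneg (Real.logb_nonneg (by norm_num) a1) hn.le, ?_⟩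
  unfold lR
  rw [div_le_iff₀ hn]
  have := Real.logb_le_logb_of_le (b := 2) (by norm_num) (by linarith) a3
  rwa [Real.logb_rpow (by norm_num) (by norm_num)] at this

theorem lz_bd : ∀ᶠ k in UF, ∀ ω, (T.F k).μ ω ≠ 0 → 0 ≤ D.lz k ω ∧ D.lz k ω ≤ D.C := by
  filter_upwards [D.big] with k hk ω hω
  obtain ⟨⟨a1, a2⟩, a3, a4⟩ := hk ω hω
  have hn := (T.F k).pos
  refine ⟨div_nonneg (Real.logb_nonneg (by norm_num) a2) hn.le, ?_⟩
  unfold lz
  rw [div_le_iff₀ hn]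
  have := Real.logb_le_logb_of_le (b := 2) (by norm_num) (by linarith) a4
  rwa [Real.logb_rpow (by norm_num) (by norm_num)] at this

/-- exponents of quantities below `K / dl 1` -/
theorem logb_le_of_dl {T : Sp} {K : ℕ → ℝ} (k : ℕ) (s : ℝ) (hs : 1 ≤ s) (h : s * T.dl 1 k ≤ K k) (hK : 0 ≤ K k) :
    Real.logb 2 s / (T.F k).n ≤ 1 + Real.logb 2 (K k + 2) / (T.F k).n := by
  have hn := (T.F k).pos
  rw [← sub_le_iff_le_add, ← div_self hn.ne', ← sub_div, div_le_div_iff_of_pos_right hn]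
  have h1 : s ≤ (K k + 2) * 2 ^ ((T.F k).n) := by
    have h2 : s * T.dl 1 k * 2 ^ ((T.F k).n) ≤ K k * 2 ^ ((T.F k).n) := mul_le_mul_of_nonneg_right h (by positivity)
    have h3 : T.dl 1 k * 2 ^ ((T.F k).n) = 1 := by
      unfold Sp.dl
      rw [← Real.rpow_add (by norm_num)]
      simp
    rw [mul_assoc, h3, mul_one] at h2
    have : (0 : ℝ) < 2 ^ ((T.F k).n) := by positivity
    nlinarith
  have h4 := Real.logb_le_logb_of_le (b := 2) (by norm_num) (by linarith) h1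
  rw [Real.logb_mul (by linarith) (by positivity), Real.logb_rpow (by norm_num) (by norm_num)] at h4
  linarith

theorem typ_lR : Typ (fun k ω => D.lR k ω ≤ 1 + Real.logb 2 (|D.K k| + 2) / (T.F k).n) := by
  refine D.rowR.mono ?_
  filter_upwards [D.big, D.hK.1] with k hk h0 ω hω hE
  have := logb_le_of_dl k _ (hk ω hω).1.1 hE.1 h0
  rwa [← abs_of_nonneg h0] at this

theorem typ_lz : Typ (fun k ω => D.lz k ω ≤ 1 + Real.logb 2 (|D.K k| + 2) / (T.F k).n) := by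
  refine D.rowz.mono ?_
  filter_upwards [D.big, D.hK.1] with k hk h0 ω hω hE
  have := logb_le_of_dl k _ (hk ω hω).1.2 hE.1 h0
  rwa [← abs_of_nonneg h0] at this

theorem e_tend : Tendsto (fun k => Real.logb 2 (|D.K k| + 2) / (T.F k).n) UF (𝓝 0) := by
  refine Tendsto.congr' ?_ D.hK.2
  filter_upwards [D.hK.1] with k hk
  rw [abs_of_nonneg hk]

theorem e_nonneg (k : ℕ) : 0 ≤ Real.logb 2 (|D.K k| + 2) / (T.F k).n :=
  div_nonneg (Real.logb_nonneg (by norm_num) (by linarith [abs_nonneg (D.K k)])) (T.F k).pos.le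

theorem mn_lR : mn T (fun k ω => max 0 (1 - D.lR k ω)) ≤ 1 - mn T D.lR :=
  mn_max D.lR D.C D.hC D.lR_bd 1 zero_le_one le_rfl _ D.e_tend D.e_nonneg D.typ_lR

theorem mn_lz : mn T (fun k ω => max 0 (1 - D.lz k ω)) ≤ 1 - mn T D.lz :=
  mn_max D.lz D.C D.hC D.lz_bd 1 zero_le_one le_rfl _ D.e_tend D.e_nonneg D.typ_lz

/-- `h (t | V, cR, XR) = 1` -/
theorem htR : h (TR.dg t 1) (io D.V ⊔ TR.dg cR 1 ⊔ TR.dg XR 1) = 1 := by
  apply le_antisymm
  · refine (h_le_H _ _).trans ?_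
    have := (TR.vec (fun _ : Fin 1 => t)).H_dg_le (r := 1) zero_le_one
    rw [vec1_dg] at this
    simpa using this
  · refine (le_of_eq D.ht.symm).trans ?_
    apply h_anti
    rw [sup_assoc]
    exact sup_le_sup_left (le_sup_left.trans le_sup_left) _

/-- the count at all times -/
theorem cmp {r : ℝ} (hr : 0 ≤ r) (hr1 : r ≤ 1) (W : Sp) (q : Pj W T) (τ : QS W) :
    h (dg (q.qs (QS.mk cR) + τ * q.qs (QS.mk XR)) r) (q.map (io D.V) ⊔ dg τ 1) ≤
      mn T (fun k ω => max 0 (r - D.lR k ω)) :=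
  cmp_row t cR XR D.V D.hV D.htR D.sR D.r0 D.r1 D.K D.hK
    (by filter_upwards [D.big] with k hk ω hω using (hk ω hω).1.1) D.rowR r hr hr1 W q τ

theorem up_R {r : ℝ} (hr : 0 ≤ r) (hr1 : r ≤ 1) :
    h (TR.dg (cR + t * XR) r) (io D.V ⊔ TR.dg t 1) ≤ mn T (fun k ω => max 0 (r - D.lR k ω)) := by
  have h1 := D.cmp hr hr1 T (Pj.id T) (QS.mk t)
  rw [Pj.id_qs, Pj.id_qs, Pj.id_map, dg_mk _ le_rfl, ← map_mul, ← map_add, dg_mk _ hr1] at h1
  exact h1

/-- the digits of `z` over `V`, the time and `R` -/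
theorem up_z : h (TR.dg (cz + t * Xz) 1) (io D.V ⊔ TR.dg t 1 ⊔ TR.dg (cR + t * XR) 1) ≤
    mn T (fun k ω => max 0 (1 - D.lz k ω)) := by
  classical
  set R : TR T := cR + t * XR with hR
  set z : TR T := cz + t * Xz with hz
  set X : ∀ k, (T.F k).Ω → (al k × (Fin 1 → ℤ)) × (Fin 1 → ℤ) :=
    fun k ω => ((D.V k ω, (TR.vec (fun _ : Fin 1 => t)).cellv 1 k ω), (TR.vec (fun _ : Fin 1 => R)).cellv 1 k ω) with hX
  have hX1 : Bdd (fun k ω => (D.V k ω, (TR.vec (fun _ : Fin 1 => t)).cellv 1 k ω)) :=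
    D.hV.pair ((TR.vec (fun _ : Fin 1 => t)).bdd 1)
  have hXb : Bdd X := hX1.pair ((TR.vec (fun _ : Fin 1 => R)).bdd 1)
  have hXi : io X = io D.V ⊔ TR.dg t 1 ⊔ TR.dg R 1 := by
    have e1 : io X = io (fun k ω => (D.V k ω, (TR.vec (fun _ : Fin 1 => t)).cellv 1 k ω)) ⊔
      (TR.vec (fun _ : Fin 1 => R)).dg 1 := io_pair hX1 ((TR.vec (fun _ : Fin 1 => R)).bdd 1)
    have e2 : io (fun k ω => (D.V k ω, (TR.vec (fun _ : Fin 1 => t)).cellv 1 k ω)) =
      io D.V ⊔ (TR.vec (fun _ : Fin 1 => t)).dg 1 := io_pair D.hV ((TR.vec (fun _ : Fin 1 => t)).bdd 1)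
    rw [e1, e2, vec1_dg, vec1_dg]
  rw [← hXi, ← vec1_dg]
  have hfl : ∀ (k : ℕ) (u : ℝ), |u - (⌊u / T.dl 1 k⌋ : ℤ) * T.dl 1 k| ≤ T.dl 1 k := by
    intro k u
    have hδ := T.dl_pos 1 k
    have f1 := Int.floor_le (u / T.dl 1 k)
    have f2 := Int.lt_floor_add_one (u / T.dl 1 k)
    rw [le_div_iff₀ hδ] at f1
    rw [div_lt_iff₀ hδ] at f2
    rw [abs_le]
    constructor <;> nlinarith
  have key := h_dg_ctr (TR.vec (fun _ : Fin 1 => z)) 1 zero_le_one X hXb _ D.rowz (fun k => 3 * D.K k)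
    ((T.Sub_const (by norm_num)).mul D.hK)
    (fun k b _ => D.b0 k b.1.1 + D.b1 k b.1.1 * (b.1.2 0 * T.dl 1 k) + D.a k b.1.1 * (b.2 0 * T.dl 1 k))
    (fun k b => max 0 (1 - Real.logb 2 (D.sz k b.1.1) / (T.F k).n)) 1
    (by
      filter_upwards [D.lz_bd] with k hk ω hω
      refine ⟨le_max_left _ _, max_le zero_le_one ?_⟩
      have := (hk ω hω).1
      show 1 - Real.logb 2 (D.sz k (D.V k ω)) / (T.F k).n ≤ 1
      have h2 : D.lz k ω = Real.logb 2 (D.sz k (D.V k ω)) / (T.F k).n := rfl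
      linarith)
    (by
      filter_upwards [D.big, D.hK.1] with k hk h0 ω hω hE i
      obtain ⟨e1, ⟨e3, e4⟩, e5⟩ := hE
      have s1 := (hk ω hω).1.2
      show |TR.ev z k ω - (D.b0 k (D.V k ω) + D.b1 k (D.V k ω) * ((⌊TR.ev t k ω / T.dl 1 k⌋ : ℤ) * T.dl 1 k) +
        D.a k (D.V k ω) * ((⌊TR.ev R k ω / T.dl 1 k⌋ : ℤ) * T.dl 1 k))| ≤
        3 * D.K k * 2 ^ (max 0 (1 - Real.logb 2 (D.sz k (D.V k ω)) / (T.F k).n) * (T.F k).n) * T.dl 1 k
      have ez : TR.ev z k ω = TR.ev cz k ω + TR.ev t k ω * TR.ev Xz k ω := rfl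
      have eR : TR.ev R k ω = TR.ev cR k ω + TR.ev t k ω * TR.ev XR k ω := rfl
      rw [← ez, ← eR] at e5
      have f1 := hfl k (TR.ev t k ω)
      have f2 := hfl k (TR.ev R k ω)
      set s := D.sz k (D.V k ω)
      set b0 := D.b0 k (D.V k ω)
      set b1 := D.b1 k (D.V k ω)
      set a := D.a k (D.V k ω)
      set u := TR.ev t k ω
      set w := TR.ev R k ω
      set x := TR.ev z k ω
      set j : ℝ := ((⌊u / T.dl 1 k⌋ : ℤ) : ℝ)
      set l : ℝ := ((⌊w / T.dl 1 k⌋ : ℤ) : ℝ)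
      have hs0 : 0 < s := by linarith
      have m1 : s * |x - (b0 + b1 * (j * T.dl 1 k) + a * (l * T.dl 1 k))| ≤ 3 * D.K k := by
        have m2 : s * |x - (b0 + b1 * (j * T.dl 1 k) + a * (l * T.dl 1 k))| =
            |s * (x - b0 - b1 * u - a * w) + s * b1 * (u - j * T.dl 1 k) + s * a * (w - l * T.dl 1 k)| := by
          rw [← abs_of_pos hs0, ← abs_mul, abs_of_pos hs0]
          congr 1
          ring
        rw [m2]
        have m3 : |s * b1 * (u - j * T.dl 1 k)| ≤ D.K k := by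
          rw [abs_mul, abs_mul, abs_of_pos hs0]
          exact le_trans (mul_le_mul_of_nonneg_left f1 (by positivity)) e3
        have m4 : |s * a * (w - l * T.dl 1 k)| ≤ D.K k := by
          rw [abs_mul, abs_mul, abs_of_pos hs0]
          exact le_trans (mul_le_mul_of_nonneg_left f2 (by positivity)) e4
        have m5 := abs_add_le (s * (x - b0 - b1 * u - a * w) + s * b1 * (u - j * T.dl 1 k))
          (s * a * (w - l * T.dl 1 k))
        have m6 := abs_add_le (s * (x - b0 - b1 * u - a * w)) (s * b1 * (u - j * T.dl 1 k))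
        linarith
      have m7 : 1 / s ≤ 2 ^ (max 0 (1 - Real.logb 2 s / (T.F k).n) * (T.F k).n) * T.dl 1 k := by
        have hnp := (T.F k).pos
        unfold Sp.dl
        rw [← Real.rpow_add (by norm_num : (0 : ℝ) < 2)]
        have m8 : 1 / s = 2 ^ (-Real.logb 2 s) := by
          rw [Real.rpow_neg (by norm_num), Real.rpow_logb (by norm_num) (by norm_num) hs0, one_div]
        rw [m8]
        apply Real.rpow_le_rpow_of_exponent_le (by norm_num)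
        have m9 : (1 - Real.logb 2 s / (T.F k).n) * (T.F k).n ≤
            max 0 (1 - Real.logb 2 s / (T.F k).n) * (T.F k).n :=
          mul_le_mul_of_nonneg_right (le_max_right _ _) hnp.le
        have m10 : (1 - Real.logb 2 s / (T.F k).n) * (T.F k).n = (T.F k).n - Real.logb 2 s := by
          field_simp
        linarith
      have m11 : |x - (b0 + b1 * (j * T.dl 1 k) + a * (l * T.dl 1 k))| ≤ 3 * D.K k * (1 / s) := by
        rw [mul_one_div, le_div_iff₀ hs0, mul_comm]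
        exact m1
      calc |x - (b0 + b1 * (j * T.dl 1 k) + a * (l * T.dl 1 k))| ≤ 3 * D.K k * (1 / s) := m11
        _ ≤ 3 * D.K k * (2 ^ (max 0 (1 - Real.logb 2 s / (T.F k).n) * (T.F k).n) * T.dl 1 k) :=
            mul_le_mul_of_nonneg_left m7 (by linarith)
        _ = _ := by ring)
  rw [Nat.cast_one, one_mul] at key
  exact key

/-- total upper bound -/
theorem up : h (TR.dg (cR + t * XR) 1 ⊔ TR.dg (cz + t * Xz) 1) (io D.V ⊔ TR.dg t 1) ≤
    2 - (mn T D.lR + mn T D.lz) := by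
  have h1 := D.up_R zero_le_one le_rfl
  have h2 := D.up_z
  have h3 := D.mn_lR
  have h4 := D.mn_lz
  have h5 : h (TR.dg (cR + t * XR) 1 ⊔ TR.dg (cz + t * Xz) 1) (io D.V ⊔ TR.dg t 1) =
      h (TR.dg (cR + t * XR) 1) (io D.V ⊔ TR.dg t 1) +
        h (TR.dg (cz + t * Xz) 1) (io D.V ⊔ TR.dg t 1 ⊔ TR.dg (cR + t * XR) 1) := by
    rw [h_chain, sup_comm (TR.dg (cR + t * XR) 1) (io D.V ⊔ TR.dg t 1)]
  linarith

/-- full volume -/
def Vol : Prop := 2 - (mn T D.lR + mn T D.lz) ≤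
  h (TR.dg (cR + t * XR) 1 ⊔ TR.dg (cz + t * Xz) 1) (io D.V ⊔ TR.dg t 1)

/-- fullness of the row of `R` -/
theorem ful_R (hv : D.Vol) : 1 - mn T D.lR ≤ h (TR.dg (cR + t * XR) 1) (io D.V ⊔ TR.dg t 1) := by
  have h1 := D.up_z
  have h2 := D.mn_lz
  have h4 : h (TR.dg (cR + t * XR) 1 ⊔ TR.dg (cz + t * Xz) 1) (io D.V ⊔ TR.dg t 1) =
      h (TR.dg (cR + t * XR) 1) (io D.V ⊔ TR.dg t 1) +
        h (TR.dg (cz + t * Xz) 1) (io D.V ⊔ TR.dg t 1 ⊔ TR.dg (cR + t * XR) 1) := by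
    rw [h_chain, sup_comm (TR.dg (cR + t * XR) 1) (io D.V ⊔ TR.dg t 1)]
  have h5 : 2 - (mn T D.lR + mn T D.lz) ≤
      h (TR.dg (cR + t * XR) 1 ⊔ TR.dg (cz + t * Xz) 1) (io D.V ⊔ TR.dg t 1) := hv
  linarith

/-- fullness of the row of `z` -/
theorem ful_z (hv : D.Vol) : 1 - mn T D.lz ≤ h (TR.dg (cz + t * Xz) 1) (io D.V ⊔ TR.dg t 1 ⊔ TR.dg (cR + t * XR) 1) := by
  have h1 := D.up_R zero_le_one le_rfl
  have h2 := D.mn_lR
  have h4 : h (TR.dg (cR + t * XR) 1 ⊔ TR.dg (cz + t * Xz) 1) (io D.V ⊔ TR.dg t 1) =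
      h (TR.dg (cR + t * XR) 1) (io D.V ⊔ TR.dg t 1) +
        h (TR.dg (cz + t * Xz) 1) (io D.V ⊔ TR.dg t 1 ⊔ TR.dg (cR + t * XR) 1) := by
    rw [h_chain, sup_comm (TR.dg (cR + t * XR) 1) (io D.V ⊔ TR.dg t 1)]
  have h5 : 2 - (mn T D.lR + mn T D.lz) ≤
      h (TR.dg (cR + t * XR) 1 ⊔ TR.dg (cz + t * Xz) 1) (io D.V ⊔ TR.dg t 1) := hv
  linarith

/-- rows on an event -/
def rest (E : ∀ k, (T.F k).Ω → Prop) (hE : 0 < ul (T.pr E)) :
    Rows (T.rest E) (TR.rest E t) (TR.rest E cR) (TR.rest E XR) (TR.rest E cz) (TR.rest E Xz) al where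
  V := D.V
  hV := rest_VB E D.hV
  sR := D.sR
  r0 := D.r0
  r1 := D.r1
  sz := D.sz
  b0 := D.b0
  b1 := D.b1
  a := D.a
  K := D.K
  hK := D.hK
  C := D.C
  hC := D.hC
  big := by
    filter_upwards [D.big] with k hk ω hω using hk ω ((T.F k).rest_supp (E k) ω hω).1
  rowR := D.rowR.rest E hE
  rowz := D.rowz.rest E hE
  ht := by
    have h1 : io (S := T.rest E) D.V = restL E hE (io D.V) := (restL_io E hE D.hV).symm
    rw [h1, TR.rest_dg E hE, TR.rest_dg E hE, TR.rest_dg E hE, TR.rest_dg E hE, TR.rest_dg E hE, ← restL_sup,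
      ← restL_sup, ← restL_sup, ← restL_sup]
    apply Sp.h_rest_max E hE D.ht
    intro E' hE'
    refine (h_le_H _ _).trans ?_
    rw [← TR.rest_dg E' hE', ← vec1_dg]
    have := (TR.vec (fun _ : Fin 1 => TR.rest E' t)).H_dg_le (r := 1) zero_le_one
    simpa using this

theorem Vol.rest {D : Rows T t cR XR cz Xz al} (hv : D.Vol) (E : ∀ k, (T.F k).Ω → Prop) (hE : 0 < ul (T.pr E)) :
    (D.rest E hE).Vol := by
  have key : ∀ (E : ∀ k, (T.F k).Ω → Prop) (hE : 0 < ul (T.pr E)),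
      h (TR.dg (TR.rest E cR + TR.rest E t * TR.rest E XR) 1 ⊔ TR.dg (TR.rest E cz + TR.rest E t * TR.rest E Xz) 1)
        (io (S := T.rest E) D.V ⊔ TR.dg (TR.rest E t) 1) =
      h (restL E hE (TR.dg (cR + t * XR) 1 ⊔ TR.dg (cz + t * Xz) 1)) (restL E hE (io D.V ⊔ TR.dg t 1)) := by
    intro E hE
    have h1 : io (S := T.rest E) D.V = restL E hE (io D.V) := (restL_io E hE D.hV).symm
    rw [h1, ← map_mul, ← map_mul, ← map_add, ← map_add, TR.rest_dg E hE, TR.rest_dg E hE, TR.rest_dg E hE,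
      ← restL_sup, ← restL_sup]
  show 2 - (mn (T.rest E) D.lR + mn (T.rest E) D.lz) ≤ h (TR.dg (TR.rest E cR + TR.rest E t * TR.rest E XR) 1 ⊔
    TR.dg (TR.rest E cz + TR.rest E t * TR.rest E Xz) 1) (io (S := T.rest E) D.V ⊔ TR.dg (TR.rest E t) 1)
  rw [key E hE]
  have h0 : 2 - (mn T D.lR + mn T D.lz) ≤
    h (TR.dg (cR + t * XR) 1 ⊔ TR.dg (cz + t * Xz) 1) (io D.V ⊔ TR.dg t 1) := hv
  have hR := mn_split D.lR_bd E
  have hz := mn_split D.lz_bd E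
  rcases typ_or E with ht | hE'
  · rw [h_restL_typ E ht]
    have h1 : ul (T.pr E) = 1 := ul_pr_typ E ht
    rw [h1] at hR hz
    linarith
  · have h1 := h_split E hE hE' (TR.dg (cR + t * XR) 1 ⊔ TR.dg (cz + t * Xz) 1) (io D.V ⊔ TR.dg t 1)
    have h2 := (D.rest (fun k ω => ¬ E k ω) hE').up
    have h3 : h (TR.dg (TR.rest (fun k ω => ¬ E k ω) cR + TR.rest (fun k ω => ¬ E k ω) t *
        TR.rest (fun k ω => ¬ E k ω) XR) 1 ⊔ TR.dg (TR.rest (fun k ω => ¬ E k ω) cz +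
        TR.rest (fun k ω => ¬ E k ω) t * TR.rest (fun k ω => ¬ E k ω) Xz) 1)
        (io (S := T.rest (fun k ω => ¬ E k ω)) D.V ⊔ TR.dg (TR.rest (fun k ω => ¬ E k ω) t) 1) ≤
        2 - (mn (T.rest fun k ω => ¬ E k ω) D.lR + mn (T.rest fun k ω => ¬ E k ω) D.lz) := h2
    rw [key _ hE'] at h3
    have h4 := ul_pr_le_one E
    have h5 : (1 - ul (T.pr E)) * h (restL (fun k ω => ¬ E k ω) hE' (TR.dg (cR + t * XR) 1 ⊔ TR.dg (cz + t * Xz) 1))
        (restL (fun k ω => ¬ E k ω) hE' (io D.V ⊔ TR.dg t 1)) ≤ (1 - ul (T.pr E)) *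
        (2 - (mn (T.rest fun k ω => ¬ E k ω) D.lR + mn (T.rest fun k ω => ¬ E k ω) D.lz)) :=
      mul_le_mul_of_nonneg_left h3 (by linarith)
    have h6 : ul (T.pr E) * (2 - (mn (T.rest E) D.lR + mn (T.rest E) D.lz)) ≤
        ul (T.pr E) * h (restL E hE (TR.dg (cR + t * XR) 1 ⊔ TR.dg (cz + t * Xz) 1))
          (restL E hE (io D.V ⊔ TR.dg t 1)) := by
      have e1 : ul (T.pr E) * (2 - (mn (T.rest E) D.lR + mn (T.rest E) D.lz)) =
          2 - (mn T D.lR + mn T D.lz) - (1 - ul (T.pr E)) *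
            (2 - (mn (T.rest fun k ω => ¬ E k ω) D.lR + mn (T.rest fun k ω => ¬ E k ω) D.lz)) := by
        rw [hR, hz]
        ring
      rw [e1]
      linarith
    exact le_of_mul_le_mul_left h6 hE

/-- (a) the digits of `R` on an event -/
theorem up_R_rest (E : ∀ k, (T.F k).Ω → Prop) (hE : 0 < ul (T.pr E)) {r : ℝ} (hr : 0 ≤ r) (hr1 : r ≤ 1) :
    h (restL E hE (TR.dg (cR + t * XR) r)) (restL E hE (io D.V ⊔ TR.dg t 1)) ≤
      mn (T.rest E) (fun k ω => max 0 (r - D.lR k ω)) := by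
  have h1 := (D.rest E hE).up_R hr hr1
  have h2 : io (S := T.rest E) D.V = restL E hE (io D.V) := (restL_io E hE D.hV).symm
  have h3 : h (TR.dg (TR.rest E cR + TR.rest E t * TR.rest E XR) r) (io (S := T.rest E) D.V ⊔ TR.dg (TR.rest E t) 1) ≤
      mn (T.rest E) (fun k ω => max 0 (r - D.lR k ω)) := h1
  rw [h2, ← map_mul, ← map_add, TR.rest_dg E hE, TR.rest_dg E hE, ← restL_sup] at h3
  exact h3

/-- (b1) fullness of `R` on an event -/
theorem ful_R_rest (hv : D.Vol) (E : ∀ k, (T.F k).Ω → Prop) (hE : 0 < ul (T.pr E)) :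
    1 - mn (T.rest E) D.lR ≤ h (restL E hE (TR.dg (cR + t * XR) 1)) (restL E hE (io D.V ⊔ TR.dg t 1)) := by
  have h1 := (D.rest E hE).ful_R (hv.rest E hE)
  have h2 : io (S := T.rest E) D.V = restL E hE (io D.V) := (restL_io E hE D.hV).symm
  have h3 : 1 - mn (T.rest E) D.lR ≤
    h (TR.dg (TR.rest E cR + TR.rest E t * TR.rest E XR) 1) (io (S := T.rest E) D.V ⊔ TR.dg (TR.rest E t) 1) := h1
  rw [h2, ← map_mul, ← map_add, TR.rest_dg E hE, TR.rest_dg E hE, ← restL_sup] at h3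
  exact h3

/-- (b2) fullness of `z` on an event -/
theorem ful_z_rest (hv : D.Vol) (E : ∀ k, (T.F k).Ω → Prop) (hE : 0 < ul (T.pr E)) :
    1 - mn (T.rest E) D.lz ≤
      h (restL E hE (TR.dg (cz + t * Xz) 1)) (restL E hE (io D.V ⊔ TR.dg t 1 ⊔ TR.dg (cR + t * XR) 1)) := by
  have h1 := (D.rest E hE).ful_z (hv.rest E hE)
  have h2 : io (S := T.rest E) D.V = restL E hE (io D.V) := (restL_io E hE D.hV).symm
  have h3 : 1 - mn (T.rest E) D.lz ≤ h (TR.dg (TR.rest E cz + TR.rest E t * TR.rest E Xz) 1)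
    (io (S := T.rest E) D.V ⊔ TR.dg (TR.rest E t) 1 ⊔ TR.dg (TR.rest E cR + TR.rest E t * TR.rest E XR) 1) := h1
  rw [h2, ← map_mul, ← map_add, ← map_mul, ← map_add, TR.rest_dg E hE, TR.rest_dg E hE, TR.rest_dg E hE,
    ← restL_sup, ← restL_sup] at h3
  exact h3

end Rows

end

end Pool.Agent.Helper19.PLK
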