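import Pool.Agent.Helper19.PLK.Rnd
import Pool.Agent.Helper48.NS.Gr

/-! PLK1 (P1): the canonical form of degree `D` as a literal bounded information `V` of the extension by the label;
`V ≤ line`, `V ≤ point`; the points fill the regular volume of the rounded form over `V` and the time. -/

set_option autoImplicit false

namespace Pool.Agent.Helper19.PLK

open Finset Filter Topology Matrix Pool.Agent.Helper69.RK Pool.Agent.Helper31.EC Pool.Agent.Helper31.EC.Sp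
open Pool.Agent.Helper40.EL Pool.Agent.Helper89.LX Pool.Agent.Helper59.EV Pool.Agent.Helper3.LF
open Pool.Agent.Helper95.LF (PdM NearM round_mat)
open Pool.Agent.Helper48.NS (GG cU cU_one one_le_GG GG_le_phi GG_mono GG_scale)

noncomputable section

variable {S : Sp} {m D : ℕ}

theorem Sub_sp {l : Lab S} {K : ℕ → ℝ} (hK : S.Sub K) : l.sp.Sub K := by
  refine ⟨hK.1, hK.2.congr fun k => ?_⟩
  have h1 : (l.sp.F k).n = (S.F k).n := (l k).hn
  rw [h1]

/-- a bounded variable which is typically a function of a given information -/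
theorem io_le_map {l : Lab S} {α : ℕ → Type} {X : ∀ k, (l k).T.Ω → α k} (hX : Bdd (S := l.sp) X) (A : S.Inf)
    (h : Nul S (fun k => h (fc (Setoid.ker (X k)) : FL (l k).T) ((l k).p.map (fc (A.1 k))))) :
    io (S := l.sp) X ≤ l.pj.map (cl A) := by
  rw [io_eq hX, Pj.map_cl, cl_le]
  show Tendsto (l.sp.rt (fun k => Setoid.ker (X k)) (l.pj.pb A.1)) UF (𝓝 0)
  refine Tendsto.congr (fun k => ?_) h
  beta_reduce
  rw [FPj.map_fc, h_fc]
  unfold Sp.rt
  have h1 : (l.sp.F k).n = (S.F k).n := (l k).hn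
  rw [h1]
  rfl

/-- (P1) the rounded canonical forms -/
theorem exists_V (s : Sys S m) {c : ℝ} {x : ∀ k, FD (S.F k) (Mon (m + 1) D)} (hx : IsCan s D c x) :
    ∃ F : ∀ k, (lb x k).T.Ω → Matrix (Mon (m + 1) D) (Mon (m + 1) D) ℝ,
      Bdd (S := (lb x).sp) F ∧
      io (S := (lb x).sp) F ≤ (lb x).pj.map (lA s c) ∧ io (S := (lb x).sp) F ≤ (lb x).pj.map (lB s) ∧
      (∀ k ω ω', (lb x k).T.μ ω ≠ 0 → (lb x k).T.μ ω' ≠ 0 → (lb x k).V ω ω' → (lb x k).T.Z ω ω' →
        F k ω = F k ω') ∧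
      (∃ C : ℝ, 0 ≤ C ∧ ∀ᶠ k in UF, ∀ ω, (lb x k).T.μ ω ≠ 0 → Cpd (2 ^ (C * (S.F k).n)) (F k ω)) ∧
      ∃ K : ℕ → ℝ, S.Sub K ∧ (∀ k, 1 ≤ K k) ∧
        Typ (S := (lb x).sp) (fun k ω => sph s D k ((lb x k).p.π ω) (F k ω) ≤ K k) ∧
        (∀ᶠ k in UF, ∀ ω, (lb x k).T.μ ω ≠ 0 → (∀ v, qf ((x k).g ω) v ≤ qf (F k ω) v) ∧
          ∀ v, qf (F k ω) v ≤ K k * qf ((x k).g ω) v) := by
  classical
  obtain ⟨Q, K, hK, hK1, hQ, ⟨C, hC0, hC⟩, hA, hB⟩ := round_diag (gau s D) hx.1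
  have qsm : ∀ (c : ℝ) (A : Matrix (Mon (m + 1) D) (Mon (m + 1) D) ℝ) (v : Mon (m + 1) D → ℝ),
      qf (c • A) v = c * qf A v := by
    intro c A v
    unfold qf
    rw [Matrix.smul_mulVec, dotProduct_smul, smul_eq_mul]
  set F : ∀ k, (lb x k).T.Ω → Matrix (Mon (m + 1) D) (Mon (m + 1) D) ℝ := fun k ω => K k • Q k ((x k).g ω) with hF
  have had := hx.1.1
  have hcpd : ∀ᶠ k in UF, ∀ ω, (lb x k).T.μ ω ≠ 0 → Cpd ((gau s D).cp k) ((x k).g ω) := by
    filter_upwards [had 1 one_pos] with k hk ω hω using (hk.2.2.1 ω hω).1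
  have hcmp : ∀ᶠ k in UF, ∀ ω, (lb x k).T.μ ω ≠ 0 → Psd (F k ω) ∧ (∀ v, qf ((x k).g ω) v ≤ qf (F k ω) v) ∧
      ∀ v, qf (F k ω) v ≤ K k * K k * qf ((x k).g ω) v := by
    filter_upwards [hcpd] with k hk ω hω
    obtain ⟨p1, p2, p3⟩ := hQ k ((x k).g ω) (hk ω hω).pdM
    have h0 := hK1 k
    refine ⟨⟨p1.1.smul _, fun v => ?_⟩, fun v => ?_, fun v => ?_⟩
    · rw [hF]
      simp only
      rw [qsm]
      exact mul_nonneg (by linarith) (p1.nonneg v)
    · rw [hF]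
      simp only
      rw [qsm]
      exact p2 v
    · rw [hF]
      simp only
      rw [qsm, mul_assoc]
      exact mul_le_mul_of_nonneg_left (p3 v) (by linarith)
  -- few values
  have hbd0 : Bdd (S := (lb x).sp) (fun k ω => Q k ((x k).g ω)) := by
    choose X hX1 hX2 using hC
    apply Bdd_of_card (S := (lb x).sp) _ X (C + 1)
    · filter_upwards [hcpd] with k hk ω hω using hX2 k _ (hk ω hω)
    · filter_upwards [S.lim.eventually (eventually_ge_atTop C)] with k hk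
      refine (hX1 k).trans (Real.rpow_le_rpow_of_exponent_le (by norm_num) ?_)
      have h1 : ((lb x).sp.F k).n = (S.F k).n := ((lb x) k).hn
      rw [h1]
      linarith
  have hbd : Bdd (S := (lb x).sp) F := hbd0.comp (fun k M => K k • M)
  have hker : ∀ k, Setoid.ker (F k) = Setoid.ker (fun ω => Q k ((x k).g ω)) := by
    intro k
    ext ω ω'
    constructor
    · intro h
      have h1 : K k • Q k ((x k).g ω) = K k • Q k ((x k).g ω') := h
      have h2 : K k ≠ 0 := by have := hK1 k; linarith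
      exact smul_right_injective _ h2 h1
    · intro h
      have h1 : Q k ((x k).g ω) = Q k ((x k).g ω') := h
      show K k • Q k ((x k).g ω) = K k • Q k ((x k).g ω')
      rw [h1]
  obtain ⟨K0, hK0, hK0t⟩ := Ad_typ had
  have hmono : ∀ k ω (A B : Matrix (Mon (m + 1) D) (Mon (m + 1) D) ℝ), (∀ v, qf A v ≤ qf B v) →
      sph s D k ω A ≤ sph s D k ω B := by
    intro k ω A B h
    exact phi_mono _ h _
  have hsmul : ∀ k ω (c : ℝ) (A : Matrix (Mon (m + 1) D) (Mon (m + 1) D) ℝ),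
      sph s D k ω (c • A) = c * sph s D k ω A := by
    intro k ω c A
    exact phi_smul _ _ _ _
  refine ⟨F, hbd, ?_, ?_, ?_, ?_, fun k => K k * K k * (|K0 k| + 1), ?_, ?_, ?_, ?_⟩
  · rw [← cl_A]
    apply io_le_map hbd
    have h1 : (fun k => h (fc (Setoid.ker (F k)) : FL (lb x k).T) ((lb x k).p.map
        (fc ((Inf.sup (Inf.sup (s.Ia 1) (s.Ix 1)) (s.It c)).1 k)))) =
        fun k => h (fc (Setoid.ker fun ω => Q k ((x k).g ω)) : FL (x k).l.T) ((x k).l.p.map (cA s c k)) := by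
      funext k
      rw [hker]
      rfl
    rw [h1]
    exact hA
  · rw [← cl_B]
    apply io_le_map hbd
    have h1 : (fun k => h (fc (Setoid.ker (F k)) : FL (lb x k).T) ((lb x k).p.map
        (fc ((Inf.sup (s.IP 1) (s.It 1)).1 k)))) =
        fun k => h (fc (Setoid.ker fun ω => Q k ((x k).g ω)) : FL (x k).l.T) ((x k).l.p.map (cB s k)) := by
      funext k
      rw [hker]
      rfl
    rw [h1]
    exact hB
  · intro k ω ω' h1 h2 h3 h4
    show K k • Q k ((x k).g ω) = K k • Q k ((x k).g ω')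
    rw [((x k).meas ω ω' h1 h2 h3 h4).1]
  · refine ⟨(gau s D).C + 1 + 1, by have := (gau s D).C0; linarith, ?_⟩
    filter_upwards [hcmp, hcpd, (hK.mul hK).eventually_le one_pos] with k a b c ω hω
    obtain ⟨a1, a2, a3⟩ := a ω hω
    refine ⟨a1.1, fun v => ((b ω hω).2.1 v).trans (a2 v), fun v => (a3 v).trans ?_⟩
    rw [add_mul _ (1 : ℝ), Real.rpow_add (by norm_num)]
    have h1 := (b ω hω).2.2 v
    have h2 : K k * K k * qf ((x k).g ω) v ≤ 2 ^ (1 * (S.F k).n) * qf ((x k).g ω) v :=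
      mul_le_mul_of_nonneg_right (by linarith) ((b ω hω).psd.2 v)
    refine h2.trans ?_
    rw [mul_comm ((2 : ℝ) ^ (((gau s D).C + 1) * (S.F k).n)), mul_assoc]
    exact mul_le_mul_of_nonneg_left h1 (by positivity)
  · have h1 : S.Sub (fun k => |K0 k| + 1) := by
      refine Sp.Sub.mono (hK0.add (S.Sub_const (K := 1) (by norm_num))) (Eventually.of_forall fun k => by
        positivity) ?_
      filter_upwards [hK0.1] with k hk
      rw [abs_of_nonneg hk]
    exact (hK.mul hK).mul h1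
  · intro k
    have h1 := hK1 k
    have h2 : 1 ≤ K k * K k := by nlinarith
    have h3 : 1 ≤ |K0 k| + 1 := by linarith [abs_nonneg (K0 k)]
    nlinarith
  · refine Typ.mono (S := (lb x).sp) (E := fun k ω => sph s D k ((x k).l.p.π ω) ((x k).g ω) ≤ K0 k) hK0t ?_
    filter_upwards [hcmp] with k a ω hω h1
    obtain ⟨a1, a2, a3⟩ := a ω hω
    have h2 := hmono k ((lb x k).p.π ω) (F k ω) ((K k * K k) • (x k).g ω) (fun v =>
      (a3 v).trans (le_of_eq (qsm (K k * K k) ((x k).g ω) v).symm))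
    rw [hsmul k _ (K k * K k) ((x k).g ω)] at h2
    refine h2.trans ?_
    apply mul_le_mul_of_nonneg_left
    · refine h1.trans ?_
      linarith [le_abs_self (K0 k)]
    · have := hK1 k
      positivity
  · filter_upwards [hcmp, hcpd] with k a b ω hω
    obtain ⟨a1, a2, a3⟩ := a ω hω
    refine ⟨a2, fun v => (a3 v).trans ?_⟩
    apply mul_le_mul_of_nonneg_right _ ((b ω hω).psd.2 v)
    have h1 := hK1 k
    have h2 : 1 ≤ K k * K k := by nlinarith
    nlinarith [abs_nonneg (K0 k)]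

/-- the exponent of the gradient determinant of a form at a point -/
def gx (s : Sys S m) (D : ℕ) (k : ℕ) (ω : (S.F k).Ω) (A : Matrix (Mon (m + 1) D) (Mon (m + 1) D) ℝ) : ℝ :=
  Real.logb 2 (GG (S.dl 1 k) A (ptf s k ω)) / (2 * (S.F k).n)

theorem gx_nonneg (s : Sys S m) (k : ℕ) (ω : (S.F k).Ω) {c : ℝ} {A : Matrix (Mon (m + 1) D) (Mon (m + 1) D) ℝ}
    (hA : Cpd c A) : 0 ≤ gx s D k ω A :=
  div_nonneg (Real.logb_nonneg (by norm_num) (one_le_GG (S.dl 1 k) hA.1 hA.psd.2 (ptf s k ω)))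
    (mul_nonneg (by norm_num) (S.F k).pos.le)

/-- exponents are bounded -/
theorem gx_le (s : Sys S m) (C : ℝ) (hC : 0 ≤ C) : ∃ M : ℝ, ∀ᶠ k in UF, ∀ ω, (S.F k).μ ω ≠ 0 →
    ∀ A : Matrix (Mon (m + 1) D) (Mon (m + 1) D) ℝ, Cpd (2 ^ (C * (S.F k).n)) A → gx s D k ω A ≤ M := by
  have hcU := cU_one m D
  obtain ⟨K1, hK1, hb⟩ := ptf_bd s
  have hnn := nn_one (m + 1) D
  have hsub : S.Sub (fun k => cU m D * (nn (m + 1) D * Fintype.card (Mon (m + 1) D) * (K1 k + 1) ^ (2 * D))) := by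
    have h0 : (0 : ℝ) ≤ nn (m + 1) D * Fintype.card (Mon (m + 1) D) := by positivity
    exact (S.Sub_const (by linarith)).mul ((S.Sub_const h0).mul (Sub_pow' (hK1.add (S.Sub_const zero_le_one)) _))
  refine ⟨m + m * (1 + C), ?_⟩
  filter_upwards [hb, hsub.eventually_le one_pos, hK1.1] with k h3 h4 h5 ω hω A hA
  have hn := (S.F k).pos
  have h1 := one_le_GG (S.dl 1 k) hA.1 hA.psd.2 (ptf s k ω)
  have h2 := one_le_phi A hA.2.1 (S.dl 1 k) (ptf s k ω)
  have h3' := GG_le_phi (S.dl 1 k) (S.dl_pos 1 k) (dl_one_le S k) A hA.pdM _ h2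
  rw [dl_sq_inv] at h3'
  have h6 := phi_le A (2 ^ (C * (S.F k).n)) hA.2.2 (by positivity) (S.dl 1 k) (K1 k + 1)
    (S.dl_pos 1 k).le (by linarith) (ptf s k ω) (fun i => add_le_add (h3 ω hω i) (dl_one_le S k))
  set B : ℝ := 2 ^ (1 * (S.F k).n) * 2 ^ (C * (S.F k).n) with hB
  have hB0 : 0 < B := by positivity
  have hB' : cU m D * phi (S.dl 1 k) A (ptf s k ω) ≤ B := by
    have h8 := mul_le_mul_of_nonneg_left h6 (show 0 ≤ cU m D by linarith)
    refine h8.trans ?_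
    have h9 : cU m D * (nn (m + 1) D * Fintype.card (Mon (m + 1) D) * (K1 k + 1) ^ (2 * D)) ≤ 2 ^ (1 * (S.F k).n) := by
      linarith
    calc cU m D * (nn (m + 1) D * Fintype.card (Mon (m + 1) D) * (K1 k + 1) ^ (2 * D) * 2 ^ (C * (S.F k).n)) =
        (cU m D * (nn (m + 1) D * Fintype.card (Mon (m + 1) D) * (K1 k + 1) ^ (2 * D))) * 2 ^ (C * (S.F k).n) := by ring
      _ ≤ _ := mul_le_mul_of_nonneg_right h9 (by positivity)
  have h4' : cU m D * (2 ^ (2 * (S.F k).n) * phi (S.dl 1 k) A (ptf s k ω)) ≤ 2 ^ (2 * (S.F k).n) * B := by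
    have := mul_le_mul_of_nonneg_left hB' (show (0 : ℝ) ≤ 2 ^ (2 * (S.F k).n) by positivity)
    linarith
  have h5' : GG (S.dl 1 k) A (ptf s k ω) ≤ (2 ^ (2 * (S.F k).n) * B) ^ m := by
    refine h3'.trans (pow_le_pow_left₀ ?_ h4' m)
    have : (0 : ℝ) < 2 ^ (2 * (S.F k).n) := by positivity
    have h6 : 0 ≤ 2 ^ (2 * (S.F k).n) * phi (S.dl 1 k) A (ptf s k ω) := mul_nonneg this.le (by linarith)
    exact mul_nonneg (by linarith) h6
  have h7 := Real.logb_le_logb_of_le (b := 2) (by norm_num) (by linarith) h5'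
  rw [Real.logb_pow, Real.logb_mul (by positivity) hB0.ne', Real.logb_rpow (by norm_num) (by norm_num), hB,
    ← Real.rpow_add (by norm_num), Real.logb_rpow (by norm_num) (by norm_num)] at h7
  unfold gx
  rw [div_le_iff₀ (by positivity)]
  have e0 : (m : ℝ) * (2 * (S.F k).n + (1 * (S.F k).n + C * (S.F k).n)) ≤
      (m + m * (1 + C)) * (2 * (S.F k).n) := by
    have : (0 : ℝ) ≤ m := Nat.cast_nonneg m
    have h9 : 0 ≤ (m : ℝ) * ((1 + C) * (S.F k).n) := by positivity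
    linarith
  linarith

/-- means of exponents of bounded forms are bounded -/
theorem gx_UB (s : Sys S m) (l : Lab S) (C : ℝ) (hC : 0 ≤ C)
    (F : ∀ k, (l k).T.Ω → Matrix (Mon (m + 1) D) (Mon (m + 1) D) ℝ)
    (hF : ∀ᶠ k in UF, ∀ ω, (l k).T.μ ω ≠ 0 → Cpd (2 ^ (C * (S.F k).n)) (F k ω)) :
    UB (fun k => ∑ ω, (l k).T.μ ω * gx s D k ((l k).p.π ω) (F k ω)) := by
  obtain ⟨M, hM⟩ := gx_le s (D := D) C hC
  apply UB_of_nonneg_le (C := M)
  · filter_upwards [hF] with k hk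
    apply Finset.sum_nonneg
    intro ω _
    by_cases h0 : (l k).T.μ ω = 0
    · rw [h0, zero_mul]
    · exact mul_nonneg ((l k).T.nn ω) (gx_nonneg s k _ (hk ω h0))
  · filter_upwards [hF, hM] with k hk hM
    exact sum_mul_le (F := (l k).T) _ M fun ω hω => hM _ ((l k).p.supp ω hω) _ (hk ω hω)

/-- a finer base gives smaller conditional entropies -/
theorem h_chgL_le {S : Sp} (Z : ∀ k, Setoid (S.F k).Ω) (x y : S.L) :
    h (chgL Z 1 one_pos x) (chgL Z 1 one_pos y) ≤ h x y := by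
  induction x using cl_ind with | _ A
  induction y using cl_ind with | _ B
  rw [chgL_cl, chgL_cl, h_cl, h_cl]
  refine ul_mono (UB_rt _ _) (UB_rt _ _) (Eventually.of_forall fun k => ?_)
  have h1 := chg_rt Z 1 one_pos A.1 B.1 k
  rw [div_one] at h1
  refine le_trans (le_of_eq h1) ?_
  exact rt_anti _ _ _ k inf_le_left

/-- a bounded information which is a function of the base is trivial -/
theorem chgL_io_bot {S : Sp} (Z : ∀ k, Setoid (S.F k).Ω) {α : ℕ → Type} {X : ∀ k, (S.F k).Ω → α k} (hX : Bdd X)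
    (hl : ∀ k ω ω', (S.F k).μ ω ≠ 0 → (S.F k).μ ω' ≠ 0 → Z k ω ω' → (S.F k).Z ω ω' → X k ω = X k ω') :
    chgL Z 1 one_pos (io X) = ⊥ := by
  rw [io_eq hX]
  apply le_antisymm _ bot_le
  rw [← h_eq_zero_iff, h_bot]
  show hZ Z (cl hX.toInf) = 0
  rw [hZ_cl]
  have h1 : S.rt hX.toInf.1 Z = fun _ => 0 := by
    funext k
    unfold Sp.rt
    rw [(S.F k).e_zero, zero_div]
    intro ω ω' h1 h2 h3
    exact hl k ω ω' h1 h2 h3.1 h3.2
  rw [h1]
  exact ul_const 0

/-- a bounded information which is a function of the label -/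
theorem h_up1_le_io (l : Lab S) {α : ℕ → Type} {X : ∀ k, (l k).T.Ω → α k} (hX : Bdd (S := l.sp) X)
    (hl : ∀ k ω ω', (l k).T.μ ω ≠ 0 → (l k).T.μ ω' ≠ 0 → (l k).V ω ω' → (l k).T.Z ω ω' → X k ω = X k ω')
    (x y : S.L) : h (up1 l x) (up1 l y) ≤ h (l.pj.map x) (io (S := l.sp) X ⊔ l.pj.map y) := by
  have hb : chgL (S := l.sp) l.V 1 one_pos (io (S := l.sp) X) = ⊥ := chgL_io_bot (S := l.sp) l.V hX hl
  have e1 : up1 l y = chgL (S := l.sp) l.V 1 one_pos (io (S := l.sp) X ⊔ l.pj.map y) := by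
    rw [chgL_sup, hb, bot_sup_eq]
    rfl
  rw [e1]
  exact h_chgL_le (S := l.sp) l.V _ _

/-- (P1) the points fill the regular volume of the rounded form over `V` and the time -/
theorem vol_V (hst : ST D m) (s : Sys S m) {x : ∀ k, FD (S.F k) (Mon (m + 1) D)} (hx : IsCan s D 0 x)
    (F : ∀ k, (lb x k).T.Ω → Matrix (Mon (m + 1) D) (Mon (m + 1) D) ℝ) (hF : Bdd (S := (lb x).sp) F)
    (hl : ∀ k ω ω', (lb x k).T.μ ω ≠ 0 → (lb x k).T.μ ω' ≠ 0 → (lb x k).V ω ω' → (lb x k).T.Z ω ω' →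
        F k ω = F k ω') (C : ℝ) (hC : 0 ≤ C)
    (hcp : ∀ᶠ k in UF, ∀ ω, (lb x k).T.μ ω ≠ 0 → Cpd (2 ^ (C * (S.F k).n)) (F k ω))
    (hge : ∀ᶠ k in UF, ∀ ω, (lb x k).T.μ ω ≠ 0 → (∀ v, qf ((x k).g ω) v ≤ qf (F k ω) v)) :
    m - ul (fun k => ∑ ω, (lb x k).T.μ ω * gx s D k ((lb x k).p.π ω) (F k ω)) ≤
      h ((lb x).pj.map (s.P.dg 1)) (io (S := (lb x).sp) F ⊔ (lb x).pj.map s.T) := by
  refine le_trans ?_ (h_up1_le_io (lb x) hF hl _ _)
  refine le_trans ?_ (hst S s x hx)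
  have hcpd : ∀ᶠ k in UF, ∀ ω, (lb x k).T.μ ω ≠ 0 → Cpd (2 ^ (((gau s D).C + 1) * (S.F k).n)) ((x k).g ω) := by
    filter_upwards [hx.1.1 1 one_pos] with k hk ω hω using (hk.2.2.1 ω hω).1
  have h1 : ul (fun k => ∑ ω, (x k).l.T.μ ω *
      (Real.logb 2 (GG (S.dl 1 k) ((x k).g ω) (ptf s k ((x k).l.p.π ω))) / (2 * (S.F k).n))) ≤
      ul (fun k => ∑ ω, (lb x k).T.μ ω * gx s D k ((lb x k).p.π ω) (F k ω)) := by
    refine ul_mono (gx_UB s (lb x) ((gau s D).C + 1) (by have := (gau s D).C0; linarith)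
      (fun k => (x k).g) hcpd) (gx_UB s (lb x) C hC F hcp) ?_
    filter_upwards [hcpd, hcp, hge] with k a b c
    apply Finset.sum_le_sum
    intro ω _
    by_cases h0 : (x k).l.T.μ ω = 0
    · have h0' : (lb x k).T.μ ω = 0 := h0
      rw [h0, h0', zero_mul, zero_mul]
    · apply mul_le_mul_of_nonneg_left _ ((x k).l.T.nn ω)
      apply div_le_div_of_nonneg_right _ (mul_nonneg (by norm_num) (S.F k).pos.le)
      have h2 := one_le_GG (S.dl 1 k) (a ω h0).1 (a ω h0).psd.2 (ptf s k ((x k).l.p.π ω))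
      apply Real.logb_le_logb_of_le (by norm_num) (by linarith)
      exact GG_mono _ (a ω h0).1 (b ω h0).1 (a ω h0).psd.2 (c ω h0) _
  unfold rvol
  linarith

end

end Pool.Agent.Helper19.PLK
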