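import Pool.Agent.Helper19.PLK.P1
import Pool.Agent.Helper32.PLK.Def

/-! PLK1 (P1): literal forms in the interface of the planks. -/

set_option autoImplicit false

namespace Pool.Agent.Helper19.PLK

open Finset Filter Topology Matrix Pool.Agent.Helper69.RK Pool.Agent.Helper31.EC Pool.Agent.Helper31.EC.Sp
open Pool.Agent.Helper40.EL Pool.Agent.Helper89.LX Pool.Agent.Helper59.EV
open Pool.Agent.Helper3.LF hiding lb sp_dl
open Pool.Agent.Helper48.NS (GG)
open Pool.Agent.Helper32.PLK (PV)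

noncomputable section

/-- literal forms exist -/
theorem exists_PV (hst : ST 1 2) {S : Sp} (s : Sys S 2) : ∃ (W : Sp) (p : Pj W S)
    (V : ∀ k, (W.F k).Ω → Matrix (Mon (2 + 1) 1) (Mon (2 + 1) 1) ℝ) (K : ℕ → ℝ) (C : ℝ), PV s W p V K C := by
  obtain ⟨x, hx⟩ := exists_can s 1 0
  obtain ⟨F, hbd, hA, hB, hl, ⟨C, hC0, hcp⟩, K, hK, hK1, htyp, hge⟩ := exists_V s hx
  have hn : ∀ k, ((lb x).sp.F k).n = (S.F k).n := fun k => ((lb x) k).hn
  have hdl : ∀ k, (lb x).sp.dl 1 k = S.dl 1 k := fun k => sp_dl (lb x) 1 k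
  refine ⟨(lb x).sp, (lb x).pj, F, K, C, ⟨hbd, ?_, ?_, Sub_sp hK, ?_, ?_, ?_⟩⟩
  · have h1 : lA s 0 = s.xi 1 := by
      unfold lA
      rw [VV.dg_nonpos _ le_rfl, sup_bot_eq]
    rw [h1] at hA
    exact hA
  · exact hB
  · filter_upwards [hcp] with k hk ω hω
    rw [hn]
    exact hk ω hω
  · refine htyp.mono (Eventually.of_forall fun k ω _ h => ?_)
    rw [hdl]
    exact h
  · have h1 := vol_V hst s hx F hbd hl C hC0 hcp (by filter_upwards [hge] with k hk ω hω using (hk ω hω).1)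
    have h2 : (fun k => ∑ w, (((lb x).sp.F k)).μ w *
        (Real.logb 2 (GG ((lb x).sp.dl 1 k) (F k w) (ptf s k ((lb x).pj.π k w))) / (2 * ((lb x).sp.F k).n))) =
        fun k => ∑ ω, (lb x k).T.μ ω * gx s 1 k ((lb x k).p.π ω) (F k ω) := by
      funext k
      refine Finset.sum_congr rfl fun w _ => ?_
      rw [hdl, hn]
      rfl
    rw [h2]
    have h3 : ((2 : ℕ) : ℝ) = 2 := by norm_num
    rw [← h3]
    exact h1

end

end Pool.Agent.Helper19.PLK
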