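import Pool.Agent.Helper19.PLK.Ful
import Pool.Agent.Helper62.PLK.Line

/-! PLK1: the rows of a literal form and their full volume. -/

set_option autoImplicit false

namespace Pool.Agent.Helper19.PLK

open Finset Filter Topology Matrix Pool.Agent.Helper69.RK Pool.Agent.Helper31.EC Pool.Agent.Helper31.EC.Sp
open Pool.Agent.Helper40.EL Pool.Agent.Helper89.LX Pool.Agent.Helper3.LF
open Pool.Agent.Helper48.NS (GG)
open Pool.Agent.Helper32.PLK (PV ev zz rz sg lamR cf vl)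
open Pool.Agent.Helper62.PLK (one_le_zz one_le_sg ev_le_phi row_le r1_le sg_le abs_le_of_sq b0 b1 al zrow_le al_le b1_le
  GG_bd zz_le_phi vec1_dg vec2_dg r0 r1)

noncomputable section

variable {S : Sp} {s : Sys S 2} {W : Sp} {p : Pj W S}
  {V : ∀ k, (W.F k).Ω → Matrix (Mon (2 + 1) 1) (Mon (2 + 1) 1) ℝ} {K : ℕ → ℝ} {C : ℝ}

theorem T_eq (s : Sys S 2) : TR.dg (TR.cor s.t 0) 1 = s.T := by
  apply le_antisymm
  · exact TR.cor_dg_le s.t 0 1
  · rw [show s.T = s.t.dg 1 from rfl, TR.vv_dg_le_iff]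
    intro i
    rw [Subsingleton.elim i 0]

theorem log_sqrt2 {x : ℝ} (hx : 0 ≤ x) : Real.logb 2 (Real.sqrt x) = Real.logb 2 x / 2 := by
  unfold Real.logb
  rw [Real.log_sqrt hx]
  ring

/-- the rows of a literal form -/
def rowsPV (h : PV s W p V K C) : Rows W (p.tr (TR.cor s.t 0)) (p.tr (TR.cor s.a 0)) (p.tr (TR.cor s.x 0))
    (p.tr (TR.cor s.a 1)) (p.tr (TR.cor s.x 1)) (fun _ => Matrix (Mon (2 + 1) 1) (Mon (2 + 1) 1) ℝ) where
  V := V
  hV := h.bd
  sR := fun _ A => Real.sqrt (sg A)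
  r0 := fun _ A => r0 A
  r1 := fun _ A => r1 A
  sz := fun _ A => Real.sqrt (zz A)
  b0 := fun _ A => b0 A
  b1 := fun _ A => b1 A
  a := fun _ A => al A
  K := fun k => 4 * (K k + 1)
  hK := (W.Sub_const (by norm_num)).mul (h.sub.add (W.Sub_const zero_le_one))
  C := |C| + 1
  hC := by positivity
  big := by
    filter_upwards [h.cpd] with k hk w hw
    obtain ⟨a1, a2, a3⟩ := hk w hw
    have hn := (W.F k).pos
    have h1 := one_le_sg a1 a2
    have h2 := one_le_zz a2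
    have hM : (2 : ℝ) ^ (C * (W.F k).n) * (ev 1 ⬝ᵥ ev 1) ≤ 2 ^ (C * (W.F k).n) ∧
        (2 : ℝ) ^ (C * (W.F k).n) * (ev 2 ⬝ᵥ ev 2) ≤ 2 ^ (C * (W.F k).n) := by
      rw [Helper62.PLK.dd_dot, Helper62.PLK.dd_dot, if_pos rfl, if_pos rfl, mul_one]
      exact ⟨le_rfl, le_rfl⟩
    have h3 : sg (V k w) ≤ 2 ^ (C * (W.F k).n) := (sg_le a2).trans ((a3 (ev 1)).trans hM.1)
    have h4 : zz (V k w) ≤ 2 ^ (C * (W.F k).n) := (a3 (ev 2)).trans hM.2
    have h5 : (2 : ℝ) ^ (C * (W.F k).n) ≤ 2 ^ ((|C| + 1) * (W.F k).n) := by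
      apply Real.rpow_le_rpow_of_exponent_le (by norm_num)
      apply mul_le_mul_of_nonneg_right _ hn.le
      linarith [le_abs_self C]
    have sq : ∀ x : ℝ, 1 ≤ x → Real.sqrt x ≤ x := fun x hx => by
      rw [Real.sqrt_le_iff]
      constructor
      · linarith
      · nlinarith
    exact ⟨⟨Real.one_le_sqrt.mpr h1, Real.one_le_sqrt.mpr h2⟩, ((sq _ h1).trans h3).trans h5,
      ((sq _ h2).trans h4).trans h5⟩
  rowR := by
    refine h.typ.mono ?_
    filter_upwards [h.cpd, h.sub.1] with k hk hK0 w hw hphi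
    obtain ⟨a1, a2, _⟩ := hk w hw
    have hp : ∀ x, 0 ≤ x ⬝ᵥ (V k w *ᵥ x) := fun x => (dot_self_nonneg x).trans (a2 x)
    have hδ := W.dl_pos 1 k
    have hg := one_le_sg a1 a2
    have b0 := ev_le_phi hp (W.dl 1 k) (ptf s k (p.π k w)) 0
    have b1 := ev_le_phi hp (W.dl 1 k) (ptf s k (p.π k w)) 1
    have b2 := row_le a1 a2 (ptf s k (p.π k w))
    have b3 := Helper59.GR.qf_le_phi (W.dl 1 k) hp (ptf s k (p.π k w))
    have b4 := r1_le a1 a2
    have b5 := sg_le a2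
    have hs0 := Real.sqrt_nonneg (sg (V k w))
    refine ⟨?_, ?_, ?_⟩
    · have c1 := abs_le_of_sq (x := Real.sqrt (sg (V k w)) * W.dl 1 k) hK0 (by
        rw [mul_pow, Real.sq_sqrt (by linarith)]
        nlinarith [sq_nonneg (W.dl 1 k)])
      exact (le_abs_self _).trans c1
    · have c1 := abs_le_of_sq (x := Real.sqrt (sg (V k w)) * |r1 (V k w)| * W.dl 1 k) hK0 (by
        rw [mul_pow]
        nlinarith [sq_nonneg (W.dl 1 k)])
      exact (le_abs_self _).trans c1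
    · have c1 := abs_le_of_sq (x := Real.sqrt (sg (V k w)) * (ptf s k (p.π k w) 1 - r0 (V k w) -
        r1 (V k w) * ptf s k (p.π k w) 0)) hK0 (by nlinarith)
      exact c1
  rowz := by
    refine h.typ.mono ?_
    filter_upwards [h.cpd, h.sub.1] with k hk hK0 w hw hphi
    obtain ⟨a1, a2, _⟩ := hk w hw
    have hp : ∀ x, 0 ≤ x ⬝ᵥ (V k w *ᵥ x) := fun x => (dot_self_nonneg x).trans (a2 x)
    have hδ := W.dl_pos 1 k
    have hz := one_le_zz a2
    have c0 := ev_le_phi hp (W.dl 1 k) (ptf s k (p.π k w)) 0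
    have c1 := ev_le_phi hp (W.dl 1 k) (ptf s k (p.π k w)) 1
    have c2 := zrow_le a1 a2 (ptf s k (p.π k w))
    have c3 := Helper59.GR.qf_le_phi (W.dl 1 k) hp (ptf s k (p.π k w))
    have c4 := al_le a1 a2
    have c5 := b1_le a1 a2
    have c6 := zz_le_phi hp (W.dl 1 k) (ptf s k (p.π k w))
    have hs0 := Real.sqrt_nonneg (zz (V k w))
    have hsq : Real.sqrt (zz (V k w)) ^ 2 = zz (V k w) := Real.sq_sqrt (by linarith)
    refine ⟨?_, ⟨?_, ?_⟩, ?_⟩
    · have d1 := abs_le_of_sq (x := Real.sqrt (zz (V k w)) * W.dl 1 k) hK0 (by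
        rw [mul_pow, hsq]
        nlinarith [sq_nonneg (W.dl 1 k)])
      exact (le_abs_self _).trans d1
    · have d1 := abs_le_of_sq (x := Real.sqrt (zz (V k w)) * |b1 (V k w)| * W.dl 1 k) hK0 (by
        rw [mul_pow, mul_pow, hsq, sq_abs]
        nlinarith [sq_nonneg (W.dl 1 k)])
      exact (le_abs_self _).trans d1
    · have d1 := abs_le_of_sq (x := Real.sqrt (zz (V k w)) * |al (V k w)| * W.dl 1 k) hK0 (by
        rw [mul_pow, mul_pow, hsq, sq_abs]
        nlinarith [sq_nonneg (W.dl 1 k)])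
      exact (le_abs_self _).trans d1
    · have d1 := abs_le_of_sq (x := Real.sqrt (zz (V k w)) * (ptf s k (p.π k w) 2 - b0 (V k w) -
        b1 (V k w) * ptf s k (p.π k w) 0 - al (V k w) * ptf s k (p.π k w) 1)) hK0 (by
          rw [mul_pow, hsq]
          nlinarith)
      exact d1
  ht := by
    have h0 : (TR.dg (p.tr (TR.cor s.a 0)) 1 ⊔ TR.dg (p.tr (TR.cor s.x 0)) 1 ⊔ TR.dg (p.tr (TR.cor s.a 1)) 1 ⊔
        TR.dg (p.tr (TR.cor s.x 1)) 1) ≤ p.map (s.xi 1) := by
      rw [p.tr_dg, p.tr_dg, p.tr_dg, p.tr_dg]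
      refine sup_le (sup_le (sup_le ?_ ?_) ?_) ?_
      · exact p.map_mono ((TR.cor_dg_le s.a 0 1).trans le_sup_left)
      · exact p.map_mono ((TR.cor_dg_le s.x 0 1).trans le_sup_right)
      · exact p.map_mono ((TR.cor_dg_le s.a 1 1).trans le_sup_left)
      · exact p.map_mono ((TR.cor_dg_le s.x 1 1).trans le_sup_right)
    apply le_antisymm
    · refine (h_le_H _ _).trans ?_
      have := (TR.vec (fun _ : Fin 1 => p.tr (TR.cor s.t 0))).H_dg_le (r := 1) zero_le_one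
      rw [vec1_dg] at this
      simpa using this
    · have h1 : Helper31.EC.h (p.map s.T) (p.map (s.xi 1)) = 1 := by
        rw [p.h_map]
        exact s.hT_xi
      rw [p.tr_dg, T_eq]
      refine (le_of_eq h1.symm).trans (h_anti ?_)
      exact sup_le h.leL h0

theorem lR_rowsPV (h : PV s W p V K C) : ∀ᶠ k in UF, ∀ w, (W.F k).μ w ≠ 0 →
    (rowsPV h).lR k w = lamR (V k w) (W.F k).n := by
  filter_upwards [h.cpd] with k hk w hw
  obtain ⟨a1, a2, _⟩ := hk w hw
  have h1 := one_le_sg a1 a2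
  show Real.logb 2 (Real.sqrt (sg (V k w))) / (W.F k).n = Real.logb 2 (sg (V k w)) / (2 * (W.F k).n)
  rw [log_sqrt2 (by linarith), div_div]

theorem lz_rowsPV (h : PV s W p V K C) : ∀ᶠ k in UF, ∀ w, (W.F k).μ w ≠ 0 →
    (rowsPV h).lz k w = Real.logb 2 (zz (V k w)) / (2 * (W.F k).n) := by
  filter_upwards [h.cpd] with k hk w hw
  obtain ⟨a1, a2, _⟩ := hk w hw
  have h1 := one_le_zz a2
  show Real.logb 2 (Real.sqrt (zz (V k w))) / (W.F k).n = Real.logb 2 (zz (V k w)) / (2 * (W.F k).n)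
  rw [log_sqrt2 (by linarith), div_div]

/-- the volume of a literal form is full -/
theorem vol_rowsPV (h : PV s W p V K C) : (rowsPV h).Vol := by
  have hR := (rowsPV h).lR_bd
  have hz := (rowsPV h).lz_bd
  have h1 : mn W (rowsPV h).lR + mn W (rowsPV h).lz = mn W (fun k w => (rowsPV h).lR k w + (rowsPV h).lz k w) := by
    unfold mn
    have e1 : (fun k => ∑ w, (W.F k).μ w * ((rowsPV h).lR k w + (rowsPV h).lz k w)) =
        fun k => (∑ w, (W.F k).μ w * (rowsPV h).lR k w) + ∑ w, (W.F k).μ w * (rowsPV h).lz k w := by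
      funext k
      rw [← Finset.sum_add_distrib]
      exact Finset.sum_congr rfl fun w _ => by ring
    rw [e1, ul_add (mn_UB hR) (mn_UB hz)]
  have h2 : ul (fun k => ∑ w, (W.F k).μ w *
    (Real.logb 2 (GG (W.dl 1 k) (V k w) (ptf s k (p.π k w))) / (2 * (W.F k).n))) ≤
      mn W (fun k w => (rowsPV h).lR k w + (rowsPV h).lz k w) := by
    have key : ∀ᶠ k in UF, ∀ w, (W.F k).μ w ≠ 0 →
        0 ≤ Real.logb 2 (GG (W.dl 1 k) (V k w) (ptf s k (p.π k w))) / (2 * (W.F k).n) ∧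
        Real.logb 2 (GG (W.dl 1 k) (V k w) (ptf s k (p.π k w))) / (2 * (W.F k).n) ≤
        ((rowsPV h).lR k w + (rowsPV h).lz k w) + Real.logb 2 81 / (W.F k).n := by
      filter_upwards [h.cpd, lR_rowsPV h, lz_rowsPV h] with k hk b c w hw
      obtain ⟨a1, a2, _⟩ := hk w hw
      have hn := (W.F k).pos
      have g1 := one_le_sg a1 a2
      have g2 := one_le_zz a2
      obtain ⟨g3, g4⟩ := GG_bd a1 a2 (W.dl 1 k) (ptf s k (p.π k w))
      have g5 : 1 ≤ zz (V k w) * sg (V k w) := by nlinarith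
      have g6 : 1 ≤ GG (W.dl 1 k) (V k w) (ptf s k (p.π k w)) := by linarith
      refine ⟨div_nonneg (Real.logb_nonneg (by norm_num) g6) (by positivity), ?_⟩
      rw [b w hw, c w hw]
      have g7 := Real.logb_le_logb_of_le (b := 2) (by norm_num) (by linarith) g4
      rw [Real.logb_mul (by norm_num) (by linarith), Real.logb_mul (by linarith) (by linarith)] at g7
      have g8 : 0 ≤ Real.logb 2 81 := Real.logb_nonneg (by norm_num) (by norm_num)
      unfold lamR
      have g9 : Real.logb 2 (GG (W.dl 1 k) (V k w) (ptf s k (p.π k w))) / (2 * (W.F k).n) ≤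
          (Real.logb 2 81 + (Real.logb 2 (zz (V k w)) + Real.logb 2 (sg (V k w)))) / (2 * (W.F k).n) :=
        div_le_div_of_nonneg_right g7 (by positivity)
      have g10 : Real.logb 2 81 / (2 * (W.F k).n) ≤ Real.logb 2 81 / (W.F k).n :=
        div_le_div_of_nonneg_left g8 hn (by linarith)
      rw [add_div, add_div] at g9
      linarith
    have hU1 : UB (fun k => ∑ w, (W.F k).μ w *
        (Real.logb 2 (GG (W.dl 1 k) (V k w) (ptf s k (p.π k w))) / (2 * (W.F k).n))) := by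
      apply mn_UB (T := W) (C := 2 * (|C| + 1) + 1)
      filter_upwards [key, hR, hz, (W.div_n_tendsto (Real.logb 2 81)).eventually (gt_mem_nhds one_pos)] with k a b c d w hw
      refine ⟨(a w hw).1, (a w hw).2.trans ?_⟩
      have b1 : (rowsPV h).lR k w ≤ |C| + 1 := (b w hw).2
      have c1 : (rowsPV h).lz k w ≤ |C| + 1 := (c w hw).2
      linarith
    have hU2 : UB (fun k => ∑ w, (W.F k).μ w * ((rowsPV h).lR k w + (rowsPV h).lz k w)) := by
      apply mn_UB (T := W) (C := 2 * (|C| + 1))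
      filter_upwards [hR, hz] with k b c w hw
      have b1 : (rowsPV h).lR k w ≤ |C| + 1 := (b w hw).2
      have c1 : (rowsPV h).lz k w ≤ |C| + 1 := (c w hw).2
      exact ⟨add_nonneg (b w hw).1 (c w hw).1, by linarith⟩
    have t1 := (ul_tendsto hU2).add (W.div_n_tendsto (Real.logb 2 81))
    rw [add_zero] at t1
    refine le_of_tendsto_of_tendsto (ul_tendsto hU1) t1 ?_
    filter_upwards [key] with k a
    have h5 := sum_mu_le (F := W.F k) _ _ fun w hw => (a w hw).2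
    refine h5.trans (le_of_eq ?_)
    rw [← sum_mu_const (F := W.F k) (Real.logb 2 81 / (W.F k).n), ← Finset.sum_add_distrib]
    refine Finset.sum_congr rfl fun w _ => ?_
    rw [sum_mu_const]
    ring
  have h3 := h.vol
  show 2 - (mn W (rowsPV h).lR + mn W (rowsPV h).lz) ≤ Helper31.EC.h (TR.dg (p.tr (TR.cor s.a 0) + p.tr (TR.cor s.t 0) *
    p.tr (TR.cor s.x 0)) 1 ⊔ TR.dg (p.tr (TR.cor s.a 1) + p.tr (TR.cor s.t 0) * p.tr (TR.cor s.x 1)) 1)
    (io V ⊔ TR.dg (p.tr (TR.cor s.t 0)) 1)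
  have e1 : TR.dg (p.tr (TR.cor s.a 0) + p.tr (TR.cor s.t 0) * p.tr (TR.cor s.x 0)) 1 ⊔
      TR.dg (p.tr (TR.cor s.a 1) + p.tr (TR.cor s.t 0) * p.tr (TR.cor s.x 1)) 1 = p.map (s.P.dg 1) := by
    rw [← map_mul, ← map_mul, ← map_add, ← map_add, p.tr_dg, p.tr_dg, ← p.map_sup, ← vec2_dg]
    congr 2
    rw [← TR.vec_cor s.P]
    congr 1
    funext i
    fin_cases i
    · rfl
    · rfl
  rw [e1, p.tr_dg, T_eq, h1]
  linarith

end

end Pool.Agent.Helper19.PLK
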