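import Pool.Agent.Helper89.LX.Njr
import Pool.Agent.Helper59.EV.Chain

/-! PLK1 (P1): the canonical form rounded by subexponential factors is a function of the line and of the point. -/

set_option autoImplicit false

namespace Pool.Agent.Helper19.PLK

open Finset Filter Topology Matrix Pool.Agent.Helper69.RK Pool.Agent.Helper31.EC Pool.Agent.Helper31.EC.Sp
open Pool.Agent.Helper40.EL Pool.Agent.Helper89.LX
open Pool.Agent.Helper95.LF (PdM NearM round_mat)

noncomputable section

variable {ι : Type} [Fintype ι] [DecidableEq ι] {S : Sp}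

/-- factors `exp (C * max 1 (n / (j + 1)))` with `j → ∞` are subexponential -/
theorem Sub_exp (C : ℝ) (hC : 0 ≤ C) (J : ℕ → ℕ) (hJ : Tendsto J UF atTop) :
    S.Sub (fun k => Real.exp (C * max 1 (1 / ((J k : ℝ) + 1) * (S.F k).n * Real.log 2))) := by
  have hl2 : 0 < Real.log 2 := Real.log_pos (by norm_num)
  refine ⟨Eventually.of_forall fun k => (Real.exp_pos _).le, ?_⟩
  have h0 : Tendsto (fun k => 1 / ((J k : ℝ) + 1)) UF (𝓝 0) :=
    tendsto_one_div_add_atTop_nhds_zero_nat.comp hJ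
  have h1 : Tendsto (fun k => (Real.logb 2 3 + C / Real.log 2) / (S.F k).n + C * (1 / ((J k : ℝ) + 1))) UF (𝓝 0) := by
    have := (S.div_n_tendsto (Real.logb 2 3 + C / Real.log 2)).add (h0.const_mul C)
    rwa [mul_zero, add_zero] at this
  refine tendsto_of_tendsto_of_tendsto_of_le_of_le tendsto_const_nhds h1 (fun k => ?_) (fun k => ?_)
  · apply div_nonneg (Real.logb_nonneg (by norm_num) _) (S.F k).pos.le
    have := Real.exp_pos (C * max 1 (1 / ((J k : ℝ) + 1) * (S.F k).n * Real.log 2))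
    linarith
  · have hn := (S.F k).pos
    set M := max 1 (1 / ((J k : ℝ) + 1) * (S.F k).n * Real.log 2) with hM
    have hM0 : 0 ≤ M := zero_le_one.trans (le_max_left _ _)
    have h2 : M ≤ 1 + 1 / ((J k : ℝ) + 1) * (S.F k).n * Real.log 2 := by
      have : 0 ≤ 1 / ((J k : ℝ) + 1) * (S.F k).n * Real.log 2 := by positivity
      exact max_le (by linarith) (by linarith)
    have h3 : 1 ≤ Real.exp (C * M) := Real.one_le_exp (by positivity)
    have h4 : Real.logb 2 (Real.exp (C * M) + 2) ≤ Real.logb 2 3 + C * M / Real.log 2 := by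
      calc Real.logb 2 (Real.exp (C * M) + 2) ≤ Real.logb 2 (3 * Real.exp (C * M)) :=
            Real.logb_le_logb_of_le (by norm_num) (by positivity) (by linarith)
        _ = _ := by
            rw [Real.logb_mul (by norm_num) (Real.exp_pos _).ne']
            congr 1
            unfold Real.logb
            rw [Real.log_exp]
    show Real.logb 2 (Real.exp (C * M) + 2) / (S.F k).n ≤ _
    have h5 : C * M / Real.log 2 ≤ C / Real.log 2 + C * (1 / ((J k : ℝ) + 1)) * (S.F k).n := by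
      rw [div_add' _ _ _ hl2.ne', div_le_div_iff_of_pos_right hl2]
      nlinarith [mul_le_mul_of_nonneg_left h2 hC]
    rw [div_add' _ _ _ hn.ne', div_le_div_iff_of_pos_right hn]
    linarith

/-- THE ROUNDING OF AN OPTIMAL FORM BY SUBEXPONENTIAL FACTORS IS A FUNCTION OF BOTH CONDITIONS -/
theorem round_diag (Φ : Gau S ι) {A B : Part S} {x : ∀ k, FD (S.F k) ι} (hx : Φ.Opt A B x) :
    ∃ (Q : ℕ → Matrix ι ι ℝ → Matrix ι ι ℝ) (K : ℕ → ℝ), S.Sub K ∧ (∀ k, 1 ≤ K k) ∧
      (∀ k M, PdM M → PdM (Q k M) ∧ (∀ v, qf M v ≤ K k * qf (Q k M) v) ∧ ∀ v, qf (Q k M) v ≤ K k * qf M v) ∧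
      (∃ C : ℝ, 0 ≤ C ∧ ∀ k, ∃ X : Finset (Matrix ι ι ℝ), (X.card : ℝ) ≤ 2 ^ (C * ((S.F k).n + 1)) ∧
        ∀ M, Cpd (Φ.cp k) M → Q k M ∈ X) ∧
      Nul S (fun k => h (fc (Setoid.ker fun ω => Q k ((x k).g ω)) : FL (x k).l.T) ((x k).l.p.map (A k))) ∧
      Nul S (fun k => h (fc (Setoid.ker fun ω => Q k ((x k).g ω)) : FL (x k).l.T) ((x k).l.p.map (B k))) := by
  classical
  have hl2 : 0 < Real.log 2 := Real.log_pos (by norm_num)
  obtain ⟨C, N, hC1, hC⟩ := round_mat ι
  set L : ℕ → ℕ → ℝ := fun j k => max 1 (1 / ((j : ℝ) + 1) * (S.F k).n * Real.log 2) with hL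
  have hL1 : ∀ j k, 1 ≤ L j k := fun j k => le_max_left _ _
  choose Q hQ1 hQ2 using fun (j k : ℕ) => hC (L j k) (hL1 j k)
  have hN : 1 ≤ N := by
    obtain ⟨X, hX, hX'⟩ := hQ2 0 0 1 Pool.Agent.Helper95.LF.PdM.one
    have h1 := hX' 1 Pool.Agent.Helper95.LF.PdM.one ⟨fun x => by
        have h2 : 1 ≤ Real.exp (L 0 0) := Real.one_le_exp (by linarith [hL1 0 0])
        rw [Matrix.one_mulVec]
        nlinarith [dot_self_nonneg x], fun x => by
        have h2 : 1 ≤ Real.exp (L 0 0) := Real.one_le_exp (by linarith [hL1 0 0])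
        rw [Matrix.one_mulVec]
        nlinarith [dot_self_nonneg x]⟩
    exact (Finset.card_pos.mpr ⟨_, h1⟩).trans_le hX
  have hlA : Nul S (fun k => (x k).l.leak (A k)) := by
    have h1 : Tendsto (fun k => (x k).l.leak (A k) / (S.F k).n) UF (𝓝 0) := by
      rw [Metric.tendsto_nhds]
      intro η hη
      filter_upwards [hx.1 (η / 2) (by positivity)] with k hk
      have hn := (S.F k).pos
      have h0 := (x k).l.leak_nonneg (A k)
      rw [Real.dist_eq, sub_zero, abs_of_nonneg (div_nonneg h0 hn.le), div_lt_iff₀ hn]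
      have := hk.1
      nlinarith
    exact h1
  have hlB : Nul S (fun k => (x k).l.leak (B k)) := by
    have h1 : Tendsto (fun k => (x k).l.leak (B k) / (S.F k).n) UF (𝓝 0) := by
      rw [Metric.tendsto_nhds]
      intro η hη
      filter_upwards [hx.1 (η / 2) (by positivity)] with k hk
      have hn := (S.F k).pos
      have h0 := (x k).l.leak_nonneg (B k)
      rw [Real.dist_eq, sub_zero, abs_of_nonneg (div_nonneg h0 hn.le), div_lt_iff₀ hn]
      have := hk.2.1
      nlinarith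
    exact h1
  have hrA : ∀ j : ℕ, Nul S (fun k => h (fc (Setoid.ker fun ω => Q j k ((x k).g ω)) : FL (x k).l.T)
      ((x k).l.p.map (A k))) := fun j => Gau.Opt.round Φ hx (1 / ((j : ℝ) + 1)) (by positivity) N hN (L j)
      (hL1 j) (fun k => le_max_right _ _) (Q j) (hQ2 j) A hlA
  have hrB : ∀ j : ℕ, Nul S (fun k => h (fc (Setoid.ker fun ω => Q j k ((x k).g ω)) : FL (x k).l.T)
      ((x k).l.p.map (B k))) := fun j => Gau.Opt.round Φ hx (1 / ((j : ℝ) + 1)) (by positivity) N hN (L j)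
      (hL1 j) (fun k => le_max_right _ _) (Q j) (hQ2 j) B hlB
  obtain ⟨J, hJ, hG⟩ := dia (fun j k =>
      h (fc (Setoid.ker fun ω => Q j k ((x k).g ω)) : FL (x k).l.T) ((x k).l.p.map (A k)) / (S.F k).n ≤
        1 / ((j : ℝ) + 1) ∧
      h (fc (Setoid.ker fun ω => Q j k ((x k).g ω)) : FL (x k).l.T) ((x k).l.p.map (B k)) / (S.F k).n ≤
        1 / ((j : ℝ) + 1)) (fun j => by
    have hj : (0 : ℝ) < 1 / ((j : ℝ) + 1) := by positivity
    filter_upwards [(hrA j).eventually (gt_mem_nhds hj), (hrB j).eventually (gt_mem_nhds hj)] with k a b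
      using ⟨a.le, b.le⟩)
  have h0 : Tendsto (fun k => 1 / ((J k : ℝ) + 1)) UF (𝓝 0) :=
    tendsto_one_div_add_atTop_nhds_zero_nat.comp hJ
  refine ⟨fun k => Q (J k) k, fun k => Real.exp (C * L (J k) k), Sub_exp C (by linarith) J hJ,
    fun k => Real.one_le_exp (by have := hL1 (J k) k; positivity), fun k M hM => ?_, ?_, ?_, ?_⟩
  · obtain ⟨p1, p2⟩ := hQ1 (J k) k M hM
    exact ⟨p1, p2.1, p2.2⟩
  · obtain ⟨C', hC'0, hC'⟩ := Φ.card_cap
    refine ⟨Real.logb 2 N + C' / Real.log 2, add_nonneg (Real.logb_nonneg (by norm_num) (by exact_mod_cast hN))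
      (by positivity), fun k => ?_⟩
    obtain ⟨X, hX, hX'⟩ := hC' (L (J k) k) (hL1 _ _) N (Q (J k) k) (hQ2 (J k) k) k
    refine ⟨X, hX.trans ?_, hX'⟩
    have hn := (S.F k).pos
    have hN0 : (0 : ℝ) < N := by exact_mod_cast hN
    have hlN : 0 ≤ Real.logb 2 N := Real.logb_nonneg (by norm_num) (by exact_mod_cast hN)
    rw [add_mul, Real.rpow_add (by norm_num)]
    apply mul_le_mul
    · have h1 : Real.logb 2 N ≤ Real.logb 2 N * ((S.F k).n + 1) := by nlinarith
      have h2 : (2 : ℝ) ^ (Real.logb 2 N) = N := Real.rpow_logb (by norm_num) (by norm_num) hN0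
      calc (N : ℝ) = (2 : ℝ) ^ (Real.logb 2 N) := h2.symm
        _ ≤ _ := Real.rpow_le_rpow_of_exponent_le (by norm_num) h1
    · rw [two_rpow_exp]
      apply le_of_eq
      congr 1
      field_simp
    · exact (Real.exp_pos _).le
    · positivity
  · refine tendsto_of_tendsto_of_tendsto_of_le_of_le' tendsto_const_nhds h0 ?_ ?_
    · exact Eventually.of_forall fun k => div_nonneg (h_nonneg _ _) (S.F k).pos.le
    · filter_upwards [hG] with k hk using (hk (J k) le_rfl).1
  · refine tendsto_of_tendsto_of_tendsto_of_le_of_le' tendsto_const_nhds h0 ?_ ?_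
    · exact Eventually.of_forall fun k => div_nonneg (h_nonneg _ _) (S.F k).pos.le
    · filter_upwards [hG] with k hk using (hk (J k) le_rfl).2

end

end Pool.Agent.Helper19.PLK
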